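import Pool.Agent.Y407.C.BadReal
import Pool.Agent.Y232.CS.Bad
import Pool.Agent.Run7.h443.CD.MainC

/-!
# The Hasse principle for 100% of the smooth Fano cyclic covers of `ℙⁿ`, `n ≥ 2`

Let `n ≥ 2`, `m ≥ 2`, `k ≥ 1` and `m k ≤ n + k`. For a form `F` of degree `m k` in `x_0, …, x_n`
with integral coefficients let `X_F` be the cyclic cover `w ^ m = F(x_0, …, x_n)` of `ℙⁿ` of degree
`m` branched along `F = 0`, a hypersurface of degree `m k` in `ℙ(1, …, 1, k)`, of dimension `n`. If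
the branch divisor is smooth then `X_F` is smooth, with `-K` the pull-back of `O(n + 1 + k - m k)`;
so the condition `m k ≤ n + k` says precisely that `X_F` is a Fano variety. Among the `F` with
coefficients bounded by `H` and smooth branch divisor for which `X_F` has points over the real
numbers and over all the `p`-adic fields (this is a positive proportion of all `F`), a proportion
tending to `1` as `H → ∞` has the property that `X_F` has a rational point. Examples are the del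
Pezzo surfaces of degree 2 (`n = 2`, `w ^ 2 = F_4(x, y, z)`), the cyclic cubic surfaces
`w ^ 3 = F_3(x, y, z)`, the sextic double solids (`n = 3`, `w ^ 2 = F_6(x_0, …, x_3)`), and the
cyclic hypersurfaces `w ^ m = F_m(x_0, …, x_n)` with `m ≤ n + 1`.
-/

set_option autoImplicit false

namespace Pool.Agent.Results.MP_03ef3d_ag.FanoCyclicCovers

open Filter Topology

/-- The forms of degree `D` in `n + 1` variables whose coefficients are integers of absolute value
at most `H`. -/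
def Forms (n D H : ℕ) : Set (MvPolynomial (Fin (n + 1)) ℤ) :=
  {F | F.IsHomogeneous D ∧ ∀ a, |F.coeff a| ≤ (H : ℤ)}

/-- The hypersurface `F = 0` in `ℙⁿ` is smooth: at every zero over a field of characteristic zero
some partial derivative does not vanish. -/
def Smooth {n : ℕ} (F : MvPolynomial (Fin (n + 1)) ℤ) : Prop :=
  ∀ (K : Type) [Field K] [CharZero K] (x : Fin (n + 1) → K), x ≠ 0 →
    MvPolynomial.aeval x F = 0 → ∃ i, MvPolynomial.aeval x (MvPolynomial.pderiv i F) ≠ 0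

/-- The cyclic cover `w ^ m = F(x)` of `ℙⁿ` has a point over the field `K`. -/
def HasPoint {n : ℕ} (m : ℕ) (F : MvPolynomial (Fin (n + 1)) ℤ) (K : Type) [Field K] : Prop :=
  ∃ (x : Fin (n + 1) → K) (w : K), x ≠ 0 ∧ w ^ m = MvPolynomial.aeval x F

/-- The cyclic cover has points over the real numbers and over all the `p`-adic fields. -/
def LocallySoluble {n : ℕ} (m : ℕ) (F : MvPolynomial (Fin (n + 1)) ℤ) : Prop :=
  HasPoint m F ℝ ∧ ∀ (p : ℕ) [Fact p.Prime], HasPoint m F ℚ_[p]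

theorem smooth_iff {n : ℕ} (f : Fin 1 → MvPolynomial (Fin (n + 1)) ℤ) :
    Pool.Agent.Y697.C13.SmoothS f ↔ Smooth (f 0) := by
  constructor
  · intro h K _ _ x hx hF
    obtain ⟨i, hi⟩ := h K x (fun _ => 1) hx (by
      intro h0
      exact one_ne_zero (congrFun h0 0)) (by
      intro j
      rw [Subsingleton.elim j 0]
      exact hF)
    refine ⟨i, ?_⟩
    rwa [Fin.sum_univ_one, one_mul] at hi
  · intro h K _ _ x l hx hl hF
    obtain ⟨i, hi⟩ := h K x hx (hF 0)
    refine ⟨i, ?_⟩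
    rw [Fin.sum_univ_one]
    refine mul_ne_zero ?_ hi
    intro h0
    apply hl
    funext j
    rw [Subsingleton.elim j 0]
    exact h0

theorem ncard_iff {n D H : ℕ} {e : Fin 1 → ℕ} (he : ∀ j, e j + 2 = D)
    (P : (Fin 1 → MvPolynomial (Fin (n + 1)) ℤ) → Prop)
    (P' : MvPolynomial (Fin (n + 1)) ℤ → Prop) (hP : ∀ f, P f ↔ P' (f 0)) :
    ({f : Fin 1 → MvPolynomial (Fin (n + 1)) ℤ | (∀ j, (f j).IsHomogeneous (e j + 2) ∧
      ∀ a, |(f j).coeff a| ≤ (H : ℤ)) ∧ P f} : Set _).ncard =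
    ({F | F ∈ Forms n D H ∧ P' F} : Set _).ncard := by
  have hinj : Function.Injective (fun F : MvPolynomial (Fin (n + 1)) ℤ => fun _ : Fin 1 => F) :=
    fun F F' h => congrFun h 0
  rw [← Set.ncard_image_of_injective _ hinj]
  congr 1
  ext f
  simp only [Set.mem_ofPred_eq, Set.mem_image, Forms]
  constructor
  · rintro ⟨h1, h2⟩
    refine ⟨f 0, ⟨⟨?_, (h1 0).2⟩, (hP f).mp h2⟩, ?_⟩
    · have := (h1 0).1
      rwa [he 0] at this
    · funext j
      rw [Subsingleton.elim j 0]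
  · rintro ⟨F, ⟨⟨h1, h2⟩, h3⟩, rfl⟩
    refine ⟨fun j => ⟨?_, h2⟩, (hP _).mpr h3⟩
    rw [he j]
    exact h1

/-- For `n ≥ 2`, `m ≥ 2`, `k ≥ 1` and `m k ≤ n + k`, 100% of the everywhere locally soluble smooth
(Fano) cyclic covers `w ^ m = F(x)` of `ℙⁿ`, `deg F = m k`, ordered by height, have a rational
point; the everywhere locally soluble ones are a positive proportion. -/
theorem result (n m k : ℕ) (hn : 2 ≤ n) (hm : 2 ≤ m) (hk : 1 ≤ k) (h : m * k ≤ n + k) :
    (∃ c : ℝ, 0 < c ∧ ∀ᶠ H : ℕ in atTop, c * ((Forms n (m * k) H).ncard : ℝ) ≤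
      (({F | F ∈ Forms n (m * k) H ∧ Smooth F ∧ LocallySoluble m F} : Set _).ncard : ℝ)) ∧
    Tendsto (fun H : ℕ =>
      (({F | F ∈ Forms n (m * k) H ∧ Smooth F ∧ HasPoint m F ℚ} : Set _).ncard : ℝ) /
      (({F | F ∈ Forms n (m * k) H ∧ Smooth F ∧ LocallySoluble m F} : Set _).ncard : ℝ))
      atTop (𝓝 1) := by
  have hD2 : 2 ≤ m * k := by nlinarith
  obtain ⟨e, he⟩ : ∃ e : Fin 1 → ℕ, ∀ j, e j + 2 = m * k :=
    ⟨fun _ => m * k - 2, fun j => by dsimp only; omega⟩
  have hmain := Pool.Agent.Run7.h443.CD.hp_C (Fin (n + 1)) (m := m) (k := k)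
    (by rw [Fintype.card_fin]; omega) hm hk he
    (by rw [Fintype.card_fin]; have := he 0; omega)
    (Pool.Agent.Y232.CS.bad_int (Fin (n + 1)) e) (Pool.Agent.Y407.C4.bad_real (Fin (n + 1)) e)
  obtain ⟨⟨c, hc, h3⟩, h4⟩ := hmain
  have e1 : ∀ H : ℕ, ({f : Fin 1 → MvPolynomial (Fin (n + 1)) ℤ |
      (∀ j, (f j).IsHomogeneous (e j + 2) ∧ ∀ a, |(f j).coeff a| ≤ (H : ℤ)) ∧
      Pool.Agent.Y697.C13.SmoothS f ∧ Pool.Agent.R465.CV.ElsW m f} : Set _).ncard =
      ({F | F ∈ Forms n (m * k) H ∧ Smooth F ∧ LocallySoluble m F} : Set _).ncard := by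
    intro H
    refine ncard_iff he (fun f => Pool.Agent.Y697.C13.SmoothS f ∧ Pool.Agent.R465.CV.ElsW m f)
      (fun F => Smooth F ∧ LocallySoluble m F) fun f => ?_
    exact and_congr (smooth_iff f) Iff.rfl
  have e2 : ∀ H : ℕ, ({f : Fin 1 → MvPolynomial (Fin (n + 1)) ℤ |
      (∀ j, (f j).IsHomogeneous (e j + 2) ∧ ∀ a, |(f j).coeff a| ≤ (H : ℤ)) ∧
      Pool.Agent.Y697.C13.SmoothS f ∧ Pool.Agent.R465.CV.Pt m (f 0) ℚ} : Set _).ncard =
      ({F | F ∈ Forms n (m * k) H ∧ Smooth F ∧ HasPoint m F ℚ} : Set _).ncard := by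
    intro H
    refine ncard_iff he (fun f => Pool.Agent.Y697.C13.SmoothS f ∧ Pool.Agent.R465.CV.Pt m (f 0) ℚ)
      (fun F => Smooth F ∧ HasPoint m F ℚ) fun f => ?_
    exact and_congr (smooth_iff f) Iff.rfl
  have e3 : ∀ H : ℕ, ({f : Fin 1 → MvPolynomial (Fin (n + 1)) ℤ |
      (∀ j, (f j).IsHomogeneous (e j + 2) ∧ ∀ a, |(f j).coeff a| ≤ (H : ℤ)) ∧
      True} : Set _).ncard = (Forms n (m * k) H).ncard := by
    intro H
    rw [ncard_iff he (fun _ => True) (fun _ => True) (fun _ => Iff.rfl)]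
    congr 1
    ext F
    simp
  constructor
  · refine ⟨c, hc, ?_⟩
    filter_upwards [h3] with H h5
    rw [e1 H, e3 H] at h5
    exact h5
  · refine h4.congr fun H => ?_
    rw [e1 H, e2 H]

end Pool.Agent.Results.MP_03ef3d_ag.FanoCyclicCovers
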