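import Pool.Agent.Run7.h443.WC.Main

/-!
# The Hasse principle for 100% of the weighted Fano hypersurfaces that are monic in one variable

Let `n ≥ 2`, `m ≥ 2`, `k ≥ 1` and `m k ≤ n + k`. For forms `c_0, …, c_{m-1}` in `x_0, …, x_n` with
integral coefficients, `deg c_j = k (m - j)`, let `X_c` be the hypersurface
`w ^ m + c_{m-1}(x) w ^ (m-1) + … + c_1(x) w + c_0(x) = 0` of degree `m k` in the weighted
projective space `ℙ(1, …, 1, k)`: the general finite cover of degree `m` of `ℙⁿ` embedded in the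
line bundle `O(k)`. If it is smooth it is a Fano variety of dimension `n` (this is the condition
`m k ≤ n + k`), hence rationally connected. The tuples are ordered by the weighted height: the
coefficients of `c_j` are bounded by `B ^ (m - j)`. A positive proportion of the `X_c` are smooth
and everywhere locally soluble, and of these 100% have a rational point. More precisely, the
exceptions have density zero in every family in which only `c_0` varies, uniformly in
`c_1, …, c_{m-1}`. Examples: cubic surfaces (`n = 2`, `m = 3`, `k = 1`), quartic threefolds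
(`n = 3`, `m = 4`, `k = 1`), del Pezzo surfaces of degree 2 (`n = 2`, `m = 2`, `k = 2`), triple
covers of `ℙ⁴` of degree 6 (`n = 4`, `m = 3`, `k = 2`).
-/

set_option autoImplicit false

namespace Pool.Agent.Results.MP_03ef3d_ag.WeightedFanoHypersurfaces

open Filter Topology

/-- The tuples `(c_0, …, c_{m-1})` of forms in `n + 1` variables with integral coefficients, where
`c_j` has degree `k (m - j)` and coefficients of absolute value at most `B ^ (m - j)`. -/
def Family (n m k B : ℕ) : Set (Fin m → MvPolynomial (Fin (n + 1)) ℤ) :=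
  {c | ∀ j : Fin m, (c j).IsHomogeneous (k * (m - (j : ℕ))) ∧
    ∀ a, |(c j).coeff a| ≤ (B : ℤ) ^ (m - (j : ℕ))}

/-- The polynomial `w ^ m + ∑ c_j(x) w ^ j` in the variables `w = X none` and `x_i = X (some i)`. -/
noncomputable def poly {n m : ℕ} (c : Fin m → MvPolynomial (Fin (n + 1)) ℤ) :
    MvPolynomial (Option (Fin (n + 1))) ℤ :=
  MvPolynomial.X none ^ m +
    ∑ j : Fin m, MvPolynomial.rename some (c j) * MvPolynomial.X none ^ (j : ℕ)

/-- The point with coordinates `x_i` and `w`. -/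
def point {n : ℕ} {K : Type} (x : Fin (n + 1) → K) (w : K) : Option (Fin (n + 1)) → K :=
  fun v => v.elim w x

/-- The hypersurface `X_c` is smooth: at every point over a field of characteristic zero some
partial derivative of the equation does not vanish. (The equation has no nontrivial solution with
`x = 0`, so `X_c` avoids the singular point of `ℙ(1, …, 1, k)`.) -/
def Smooth {n m : ℕ} (c : Fin m → MvPolynomial (Fin (n + 1)) ℤ) : Prop :=
  ∀ (K : Type) [Field K] [CharZero K] (x : Fin (n + 1) → K) (w : K), x ≠ 0 →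
    MvPolynomial.aeval (point x w) (poly c) = 0 →
    ∃ v, MvPolynomial.aeval (point x w) (MvPolynomial.pderiv v (poly c)) ≠ 0

/-- The hypersurface `X_c` has a point over the field `K`. -/
def HasPoint {n m : ℕ} (c : Fin m → MvPolynomial (Fin (n + 1)) ℤ) (K : Type) [Field K] : Prop :=
  ∃ (x : Fin (n + 1) → K) (w : K), x ≠ 0 ∧ MvPolynomial.aeval (point x w) (poly c) = 0

/-- The hypersurface `X_c` has points over the real numbers and over all the `p`-adic fields. -/
def LocallySoluble {n m : ℕ} (c : Fin m → MvPolynomial (Fin (n + 1)) ℤ) : Prop :=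
  HasPoint c ℝ ∧ ∀ (p : ℕ) [Fact p.Prime], HasPoint c ℚ_[p]

theorem aeval_poly {n m : ℕ} (c : Fin m → MvPolynomial (Fin (n + 1)) ℤ) {K : Type} [Field K]
    (x : Fin (n + 1) → K) (w : K) : MvPolynomial.aeval (point x w) (poly c) =
      w ^ m + ∑ j : Fin m, MvPolynomial.aeval x (c j) * w ^ (j : ℕ) := by
  unfold poly
  rw [map_add, map_pow, MvPolynomial.aeval_X, map_sum]
  congr 1
  refine Finset.sum_congr rfl fun j _ => ?_
  rw [map_mul, map_pow, MvPolynomial.aeval_X, MvPolynomial.aeval_rename]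
  rfl

theorem pderiv_none_rename {n : ℕ} (P : MvPolynomial (Fin (n + 1)) ℤ) :
    MvPolynomial.pderiv none (MvPolynomial.rename some P :
      MvPolynomial (Option (Fin (n + 1))) ℤ) = 0 := by
  classical
  apply MvPolynomial.pderiv_eq_zero_of_notMem_vars
  intro h
  have := MvPolynomial.vars_rename some P h
  rw [Finset.mem_image] at this
  obtain ⟨a, _, ha⟩ := this
  exact Option.some_ne_none a ha

theorem aeval_pderiv_none {n m : ℕ} (c : Fin m → MvPolynomial (Fin (n + 1)) ℤ) {K : Type}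
    [Field K] (x : Fin (n + 1) → K) (w : K) :
    MvPolynomial.aeval (point x w) (MvPolynomial.pderiv none (poly c)) =
      (m : K) * w ^ (m - 1) +
        ∑ j : Fin m, MvPolynomial.aeval x (c j) * (((j : ℕ) : K) * w ^ ((j : ℕ) - 1)) := by
  unfold poly
  rw [map_add, MvPolynomial.pderiv_pow, MvPolynomial.pderiv_X_self, mul_one, map_sum, map_add,
    map_mul, map_pow, MvPolynomial.aeval_X, map_natCast, map_sum]
  congr 1
  refine Finset.sum_congr rfl fun j _ => ?_
  rw [MvPolynomial.pderiv_mul, pderiv_none_rename, zero_mul, zero_add, MvPolynomial.pderiv_pow,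
    MvPolynomial.pderiv_X_self, mul_one, map_mul, map_mul, map_pow, MvPolynomial.aeval_X,
    MvPolynomial.aeval_rename, map_natCast]
  rfl

theorem aeval_pderiv_some {n m : ℕ} (c : Fin m → MvPolynomial (Fin (n + 1)) ℤ) {K : Type}
    [Field K] (x : Fin (n + 1) → K) (w : K) (i : Fin (n + 1)) :
    MvPolynomial.aeval (point x w) (MvPolynomial.pderiv (some i) (poly c)) =
      ∑ j : Fin m, MvPolynomial.aeval x (MvPolynomial.pderiv i (c j)) * w ^ (j : ℕ) := by
  have hX : ∀ s : ℕ, MvPolynomial.pderiv (some i)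
      (MvPolynomial.X none ^ s : MvPolynomial (Option (Fin (n + 1))) ℤ) = 0 := by
    intro s
    rw [MvPolynomial.pderiv_pow, MvPolynomial.pderiv_X_of_ne (Option.some_ne_none i).symm, mul_zero]
  unfold poly
  rw [map_add, hX, zero_add, map_sum, map_sum]
  refine Finset.sum_congr rfl fun j _ => ?_
  rw [MvPolynomial.pderiv_mul, hX, mul_zero, add_zero,
    MvPolynomial.pderiv_rename (Option.some_injective _), map_mul, map_pow, MvPolynomial.aeval_X,
    MvPolynomial.aeval_rename]
  rfl

theorem smooth_iff {n m : ℕ} (c : Fin m → MvPolynomial (Fin (n + 1)) ℤ) :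
    Smooth c ↔ Pool.Agent.Run7.h443.WC.SmoothW c := by
  unfold Smooth Pool.Agent.Run7.h443.WC.SmoothW
  refine forall_congr' fun K => forall_congr' fun _ => forall_congr' fun _ => forall_congr' fun x =>
    forall_congr' fun w => forall_congr' fun _ => ?_
  rw [aeval_poly]
  refine forall_congr' fun _ => ?_
  constructor
  · rintro ⟨v, hv⟩
    rcases v with _ | i
    · left; rwa [aeval_pderiv_none] at hv
    · right; rw [aeval_pderiv_some] at hv; exact ⟨i, hv⟩
  · rintro (h | ⟨i, h⟩)
    · exact ⟨none, by rwa [aeval_pderiv_none]⟩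
    · exact ⟨some i, by rwa [aeval_pderiv_some]⟩

theorem hasPoint_iff {n m : ℕ} (c : Fin m → MvPolynomial (Fin (n + 1)) ℤ) (K : Type) [Field K] :
    HasPoint c K ↔ Pool.Agent.Run7.h443.WC.PtF c K := by
  unfold HasPoint Pool.Agent.Run7.h443.WC.PtF Pool.Agent.Run7.h443.WC.EqF
  simp only [aeval_poly]

theorem locallySoluble_iff {n m : ℕ} (c : Fin m → MvPolynomial (Fin (n + 1)) ℤ) :
    LocallySoluble c ↔ Pool.Agent.Run7.h443.WC.ElsF c := by
  unfold LocallySoluble Pool.Agent.Run7.h443.WC.ElsF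
  simp only [hasPoint_iff]

theorem mem_family {n m k B : ℕ} {c : Fin m → MvPolynomial (Fin (n + 1)) ℤ} :
    c ∈ Pool.Agent.Run7.h443.WC.famZ (Fin (n + 1)) m k (B : ℝ) ↔ c ∈ Family n m k B := by
  rw [Pool.Agent.Run7.h443.WC.mem_famZ]
  unfold Family Pool.Agent.Y716.Q.IsF
  rw [Set.mem_ofPred_eq]
  refine forall_congr' fun j => and_congr_right fun _ => forall_congr' fun a => ?_
  constructor
  · intro h
    exact_mod_cast h
  · intro h
    exact_mod_cast h

theorem ncard_family {n m k B : ℕ} (P : (Fin m → MvPolynomial (Fin (n + 1)) ℤ) → Prop)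
    [DecidablePred P] :
    ({c | c ∈ Family n m k B ∧ P c} : Set _).ncard =
      ((Pool.Agent.Run7.h443.WC.famZ (Fin (n + 1)) m k (B : ℝ)).filter P).card := by
  rw [← Set.ncard_coe_finset]
  congr 1
  ext c
  rw [Finset.coe_filter, Set.mem_ofPred_eq, Set.mem_ofPred_eq, mem_family]

/-- The members of a family in which only `c_0` varies. -/
theorem fibre {n m k B : ℕ} (hm1 : 1 ≤ m) {t : Fin m → MvPolynomial (Fin (n + 1)) ℤ}
    (ht : t ∈ Family n m k B) (P : (Fin m → MvPolynomial (Fin (n + 1)) ℤ) → Prop)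
    [DecidablePred P] :
    ({c | c ∈ Family n m k B ∧ (∀ j : Fin m, (j : ℕ) ≠ 0 → c j = t j) ∧ P c} : Set _).ncard =
        ((Pool.Agent.Y716.Q.formsZ (Fin (n + 1)) (k * m) ((B : ℝ) ^ m)).filter
          (fun F => P (Function.update t ⟨0, hm1⟩ F))).card := by
  classical
  rw [ncard_family]
  apply Finset.card_bij (fun c _ => c ⟨0, hm1⟩)
  · intro c hc
    rw [Finset.mem_filter] at hc
    have h2 := Pool.Agent.Run7.h443.WC.mem_famZ.mp hc.1 ⟨0, hm1⟩
    have h3 : Function.update t ⟨0, hm1⟩ (c ⟨0, hm1⟩) = c := by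
      funext j
      by_cases hj : j = ⟨0, hm1⟩
      · rw [hj, Function.update_self]
      · rw [Function.update_of_ne hj]
        exact (hc.2.1 j (fun h0 => hj (Fin.ext h0))).symm
    rw [Finset.mem_filter, Pool.Agent.Y716.Q.mem_formsZ]
    refine ⟨by simpa using h2, ?_⟩
    rw [h3]
    exact hc.2.2
  · intro c hc c' hc' h2
    rw [Finset.mem_filter] at hc hc'
    funext j
    by_cases hj : j = ⟨0, hm1⟩
    · rw [hj]; exact h2
    · have h0 : (j : ℕ) ≠ 0 := fun h0 => hj (Fin.ext h0)
      rw [hc.2.1 j h0, hc'.2.1 j h0]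
  · intro F hF
    rw [Finset.mem_filter, Pool.Agent.Y716.Q.mem_formsZ] at hF
    refine ⟨Function.update t ⟨0, hm1⟩ F, ?_, Function.update_self _ _ _⟩
    rw [Finset.mem_filter]
    refine ⟨?_, ?_, hF.2⟩
    · rw [Pool.Agent.Run7.h443.WC.mem_famZ]
      intro j
      by_cases hj : j = ⟨0, hm1⟩
      · subst hj
        rw [Function.update_self]
        simpa using hF.1
      · rw [Function.update_of_ne hj]
        exact Pool.Agent.Run7.h443.WC.mem_famZ.mp (mem_family.mpr ht) j
    · intro j h0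
      rw [Function.update_of_ne]
      intro hj
      exact h0 (congrArg Fin.val hj)

/-- For `n ≥ 2`, `m ≥ 2`, `k ≥ 1` and `m k ≤ n + k`: (a) a positive proportion of the weighted
hypersurfaces `w ^ m + ∑ c_j(x) w ^ j = 0`, ordered by the weighted height, are smooth and
everywhere locally soluble, and 100% of the smooth everywhere locally soluble ones have a rational
point; (b) the same holds, with uniform bounds, whatever the lower coefficients `c_1, …, c_{m-1}`:
at least a proportion `δ > 0` of the choices of `c_0` give an everywhere locally soluble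
hypersurface, and for every `ε > 0` and all large `B` a proportion at most `ε` of these have no
rational point. -/
theorem result (n m k : ℕ) (hn : 2 ≤ n) (hm : 2 ≤ m) (hk : 1 ≤ k) (h : m * k ≤ n + k) :
    ((∃ δ : ℝ, 0 < δ ∧ ∀ᶠ B : ℕ in atTop, δ * ((Family n m k B).ncard : ℝ) ≤
      (({c | c ∈ Family n m k B ∧ Smooth c ∧ LocallySoluble c} : Set _).ncard : ℝ)) ∧
    Tendsto (fun B : ℕ =>
      (({c | c ∈ Family n m k B ∧ Smooth c ∧ HasPoint c ℚ} : Set _).ncard : ℝ) /
      (({c | c ∈ Family n m k B ∧ Smooth c ∧ LocallySoluble c} : Set _).ncard : ℝ))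
      atTop (𝓝 1)) ∧
    (∃ δ : ℝ, 0 < δ ∧ ∀ᶠ B : ℕ in atTop, ∀ t ∈ Family n m k B,
      δ * (({c | c ∈ Family n m k B ∧ ∀ j : Fin m, (j : ℕ) ≠ 0 → c j = t j} : Set _).ncard : ℝ) ≤
      (({c | c ∈ Family n m k B ∧ (∀ j : Fin m, (j : ℕ) ≠ 0 → c j = t j) ∧
        LocallySoluble c} : Set _).ncard : ℝ)) ∧
    ∀ ε : ℝ, 0 < ε → ∀ᶠ B : ℕ in atTop, ∀ t ∈ Family n m k B,
      (({c | c ∈ Family n m k B ∧ (∀ j : Fin m, (j : ℕ) ≠ 0 → c j = t j) ∧
        LocallySoluble c ∧ ¬ HasPoint c ℚ} : Set _).ncard : ℝ) ≤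
      ε * (({c | c ∈ Family n m k B ∧ (∀ j : Fin m, (j : ℕ) ≠ 0 → c j = t j) ∧
        LocallySoluble c} : Set _).ncard : ℝ) := by
  classical
  have hcard : m * k + 1 ≤ Fintype.card (Fin (n + 1)) + k := by
    rw [Fintype.card_fin]; omega
  have hn3 : 3 ≤ Fintype.card (Fin (n + 1)) := by rw [Fintype.card_fin]; omega
  have hm1 : 1 ≤ m := by omega
  obtain ⟨⟨δ, hδ0, B₀, hB₀⟩, hT⟩ := Pool.Agent.Run7.h443.WC.main_F (Fin (n + 1)) hn3 hm hk hcard
  obtain ⟨δ', hδ'0, B₂, hB₂⟩ :=
    Pool.Agent.Run7.h443.WC.pos_unif (Fin (n + 1)) hn3 hm hk hcard hm1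
  have hpos : ∀ B : ℕ, B₂ ≤ (B : ℝ) → ∀ t ∈ Family n m k B,
      δ' * ((Pool.Agent.Y716.Q.formsZ (Fin (n + 1)) (k * m) ((B : ℝ) ^ m)).card : ℝ) ≤
      (({c | c ∈ Family n m k B ∧ (∀ j : Fin m, (j : ℕ) ≠ 0 → c j = t j) ∧
        LocallySoluble c} : Set _).ncard : ℝ) := by
    intro B hB t ht
    have h1 := hB₂ B hB t (mem_family.mpr ht)
    rw [fibre hm1 ht]
    refine h1.trans (Pool.Agent.Y716.Q.card_filter_le' _ _ _ ?_)
    intro F _ g1
    exact (locallySoluble_iff _).mpr (Pool.Agent.Run7.h443.WC.elsF_of_pt g1)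
  refine ⟨⟨⟨δ, hδ0, ?_⟩, ?_⟩, ⟨δ', hδ'0, ?_⟩, ?_⟩
  · filter_upwards [Filter.eventually_ge_atTop ⌈B₀⌉₊] with B hB
    have hBr : B₀ ≤ (B : ℝ) := (Nat.le_ceil _).trans (by exact_mod_cast hB)
    have h1 := hB₀ B hBr
    have h2 : ((Family n m k B).ncard : ℝ) =
        ((Pool.Agent.Run7.h443.WC.famZ (Fin (n + 1)) m k (B : ℝ)).card : ℝ) := by
      have := ncard_family (n := n) (m := m) (k := k) (B := B) (fun _ => True)
      simp only [and_true, Finset.filter_true] at this
      rw [← this]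
      rfl
    rw [h2, ncard_family]
    refine h1.trans (Pool.Agent.Y716.Q.card_filter_le' _ _ _ ?_)
    intro c _ ⟨g1, g2⟩
    exact ⟨(smooth_iff c).mpr g1,
      (locallySoluble_iff c).mpr (Pool.Agent.Run7.h443.WC.elsF_of_pt g2)⟩
  · refine hT.congr fun B => ?_
    rw [ncard_family, ncard_family]
    simp only [smooth_iff, hasPoint_iff, locallySoluble_iff]
  · filter_upwards [Filter.eventually_ge_atTop ⌈B₂⌉₊] with B hB t ht
    have hBr : B₂ ≤ (B : ℝ) := (Nat.le_ceil _).trans (by exact_mod_cast hB)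
    have h1 := hpos B hBr t ht
    have h3 := fibre hm1 ht (fun _ => True)
    simp only [and_true, Finset.filter_true] at h3
    rw [h3]
    exact h1
  · intro ε hε
    obtain ⟨B₁, hB₁⟩ := Pool.Agent.Run7.h443.WC.exc_unif (Fin (n + 1)) hn3 hm hk hcard hm1
      (ε * δ') (by positivity)
    filter_upwards [Filter.eventually_ge_atTop ⌈max B₁ B₂⌉₊] with B hB t ht
    have hBr : max B₁ B₂ ≤ (B : ℝ) := (Nat.le_ceil _).trans (by exact_mod_cast hB)
    have h1 := hB₁ B ((le_max_left _ _).trans hBr) t (mem_family.mpr ht)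
    have h0 := hpos B ((le_max_right _ _).trans hBr) t ht
    have h2 := fibre hm1 ht (fun c => LocallySoluble c ∧ ¬ HasPoint c ℚ)
    rw [h2]
    have h3 := mul_le_mul_of_nonneg_left h0 hε.le
    refine le_trans (Pool.Agent.Y716.Q.card_filter_le' _ _ _ ?_) (h1.trans (le_trans (le_of_eq ?_) h3))
    · intro F _ ⟨g1, g2⟩
      exact ⟨(locallySoluble_iff _).mp g1, fun g3 => g2 ((hasPoint_iff _ _).mpr g3)⟩
    · ring

end Pool.Agent.Results.MP_03ef3d_ag.WeightedFanoHypersurfaces
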